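import Mathlib
import Pool.Agent.TTT.Defs

set_option autoImplicit false

/-!
# Proper colourings of `[n]^ι`
-/

namespace Pool.Agent.HJH

open Finset Pool.Agent.TTT

/-- A parametrized geometric line. -/
def LineMap {ι : Type*} (n : ℕ) (x : Fin n → ι → Fin n) : Prop :=
  (∀ i, (∃ a, ∀ t, x t i = a) ∨ (∀ t, x t i = t) ∨ (∀ t, x t i = Fin.rev t)) ∧
    ∃ i, ¬ ∃ a, ∀ t, x t i = a

/-- Proper colourings: no geometric line is monochromatic. -/
def Pr (ι : Type*) (n : ℕ) (c : (ι → Fin n) → Bool) : Prop :=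
  ∀ x : Fin n → ι → Fin n, LineMap n x → ∀ b : Bool, ∃ t, c (x t) ≠ b

/-- The difference of the sizes of the colour classes. -/
def imb {ι : Type*} [Fintype ι] [DecidableEq ι] {n : ℕ} (c : (ι → Fin n) → Bool) : ℤ :=
  ∑ z, (if c z = true then 1 else -1)

lemma pr_iff {n d : ℕ} (c : (Fin d → Fin n) → Bool) :
    Pr (Fin d) n c ↔ ∀ l, IsLine n d l → ∀ b : Bool, ∃ x ∈ l, c x ≠ b := by
  constructor
  · rintro h l ⟨x, h1, h2, rfl⟩ b
    obtain ⟨t, ht⟩ := h x ⟨h1, h2⟩ b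
    exact ⟨x t, mem_image_of_mem _ (mem_univ _), ht⟩
  · intro h x hx b
    obtain ⟨y, hy, hb⟩ := h _ ⟨x, hx.1, hx.2, rfl⟩ b
    obtain ⟨t, -, rfl⟩ := mem_image.1 hy
    exact ⟨t, hb⟩

lemma imb_eq {ι : Type*} [Fintype ι] [DecidableEq ι] {n : ℕ} (c : (ι → Fin n) → Bool) :
    imb c = ((univ.filter fun x => c x = true).card : ℤ) -
      ((univ.filter fun x => c x = false).card : ℤ) := by
  rw [imb, card_filter, card_filter, Nat.cast_sum, Nat.cast_sum, ← sum_sub_distrib]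
  refine sum_congr rfl fun x _ => ?_
  cases c x <;> simp

lemma drawing_of_imb {n d : ℕ} {c : (Fin d → Fin n) → Bool} (hc : Pr (Fin d) n c)
    (h1 : imb c ≤ 1) (h2 : -1 ≤ imb c) : IsDrawing n d c := by
  rw [imb_eq] at h1 h2
  exact ⟨⟨by omega, by omega⟩, (pr_iff c).1 hc⟩

lemma imb_not {ι : Type*} [Fintype ι] [DecidableEq ι] {n : ℕ} (c : (ι → Fin n) → Bool) :
    imb (fun z => !(c z)) = - imb c := by
  rw [imb, imb, ← sum_neg_distrib]
  refine sum_congr rfl fun x _ => ?_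
  cases c x <;> simp

lemma pr_not {ι : Type*} {n : ℕ} {c : (ι → Fin n) → Bool} (h : Pr ι n c) :
    Pr ι n (fun z => !(c z)) := by
  intro x hx b
  obtain ⟨t, ht⟩ := h x hx (!b)
  refine ⟨t, fun h => ht ?_⟩
  rw [← h, Bool.not_not]

/-- The colour changing involution gives `imb c = 0`. -/
lemma imb_zero_of_inv {ι : Type*} [Fintype ι] [DecidableEq ι] {n : ℕ} {c : (ι → Fin n) → Bool}
    (f : (ι → Fin n) → (ι → Fin n)) (hf : ∀ z, f (f z) = z) (hc : ∀ z, c (f z) = !(c z)) :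
    imb c = 0 := by
  have h : imb c = - imb c := by
    rw [← imb_not, imb, imb]
    refine Fintype.sum_equiv ⟨f, f, hf, hf⟩ _ _ fun z => ?_
    simp only [Equiv.coe_fn_mk, hc, Bool.not_not]
  omega

lemma nonconst_of {n : ℕ} (hn : 2 ≤ n) {f : Fin n → Fin n}
    (h : (∀ t, f t = t) ∨ (∀ t, f t = Fin.rev t)) : ¬ ∃ a, ∀ t, f t = a := by
  rintro ⟨a, ha⟩
  have h0 := ha ⟨0, by omega⟩
  have h1 := ha ⟨1, by omega⟩
  rcases h with h | h
  · rw [h] at h0 h1
    rw [← h0] at h1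
    exact absurd (congrArg Fin.val h1) (by simp)
  · rw [h] at h0 h1
    rw [← h0] at h1
    have := congrArg Fin.val h1
    rw [Fin.val_rev, Fin.val_rev] at this
    simp only at this
    omega

end Pool.Agent.HJH
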