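import Mathlib
import Pool.Agent.TTT.Defs

set_option autoImplicit false

/-!
# The Hales–Jewett numbers
-/

namespace Pool.Agent.HJH

open Pool.Agent.TTT

/-- The 2-colouring `c` of `[n]^d` is proper: no geometric line is monochromatic. -/
def IsProper (n d : ℕ) (c : (Fin d → Fin n) → Bool) : Prop :=
  ∀ l, IsLine n d l → ∀ b : Bool, ∃ x ∈ l, c x ≠ b

/-- The Hales–Jewett number `HJ(n)`: the least `d` such that no 2-colouring of `[n]^d` is
proper. -/
noncomputable def HJ (n : ℕ) : ℕ := sInf {d | ¬ ∃ c : (Fin d → Fin n) → Bool, IsProper n d c}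

/-- The number `HJ*_{1/2}(n)`: the largest `D` such that `[n]^d` has a proper halving 2-colouring
for every `d < D`. -/
noncomputable def HJhalf (n : ℕ) : ℕ :=
  sSup {D | ∀ d < D, ∃ c : (Fin d → Fin n) → Bool, IsDrawing n d c}

end Pool.Agent.HJH
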