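import Mathlib
import Pool.Agent.HJH.Basic

set_option autoImplicit false

/-!
# Even `n`

`n = 2 m`. The colour of `x` is the side of its first coordinate in the middle pair
`{m - 1, m}`, plus the colour of the later coordinates in `[n - 1]^e`, where the middle pair is
contracted.
-/

namespace Pool.Agent.HJH

open Finset Pool.Agent.TTT

namespace Even_

variable {m e : ℕ}

/-- The values of the middle pair. -/
def inM (v : Fin (2 * m)) : Prop := v.1 + 1 = m ∨ v.1 = m

instance (v : Fin (2 * m)) : Decidable (inM v) := by unfold inM; infer_instance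

lemma inM_rev (v : Fin (2 * m)) : inM (Fin.rev v) ↔ inM v := by
  have := v.2
  simp only [inM, Fin.val_rev]
  omega

/-- Contraction of the middle pair. -/
def pi (hm : 2 ≤ m) (v : Fin (2 * m)) : Fin (2 * m - 1) :=
  ⟨if v.1 < m then v.1 else v.1 - 1, by have := v.2; split <;> omega⟩

/-- A section of `pi`. -/
def lft (s : Fin (2 * m - 1)) : Fin (2 * m) :=
  ⟨if s.1 < m then s.1 else s.1 + 1, by have := s.2; split <;> omega⟩

lemma pi_lft (hm : 2 ≤ m) (s : Fin (2 * m - 1)) : pi hm (lft s) = s := by
  ext
  simp only [pi, lft]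
  split_ifs <;> omega

lemma pi_rev_lft (hm : 2 ≤ m) (s : Fin (2 * m - 1)) : pi hm (Fin.rev (lft s)) = Fin.rev s := by
  ext
  have := s.2
  simp only [pi, lft, Fin.val_rev]
  split_ifs <;> omega

lemma pi_inM (hm : 2 ≤ m) {v w : Fin (2 * m)} (hv : inM v) (hw : inM w) : pi hm v = pi hm w := by
  ext
  simp only [inM] at hv hw
  simp only [pi]
  split_ifs <;> omega

/-- The set of the coordinates in the middle pair. -/
def mset (x : Fin (e + 1) → Fin (2 * m)) : Finset (Fin (e + 1)) := univ.filter fun i => inM (x i)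

/-- The first coordinate in the middle pair, or `0`. -/
def tau (x : Fin (e + 1) → Fin (2 * m)) : Fin (e + 1) :=
  if h : (mset x).Nonempty then (mset x).min' h else 0

/-- The later coordinates. -/
def suf (hm : 2 ≤ m) (x : Fin (e + 1) → Fin (2 * m)) : Fin e → Fin (2 * m - 1) := fun i =>
  if (mset x).Nonempty ∧ tau x < i.succ then pi hm (x i.succ) else ⟨0, by omega⟩

/-- The colouring. -/
def col (hm : 2 ≤ m) (b : (Fin e → Fin (2 * m - 1)) → Bool) (x : Fin (e + 1) → Fin (2 * m)) :
    Bool := xor (b (suf hm x)) (decide (m ≤ (x (tau x)).1))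

/-- The involution. -/
def inv (x : Fin (e + 1) → Fin (2 * m)) : Fin (e + 1) → Fin (2 * m) :=
  Function.update x (tau x) (Fin.rev (x (tau x)))

lemma mset_inv (x : Fin (e + 1) → Fin (2 * m)) : mset (inv x) = mset x := by
  ext i
  have h : inM (inv x i) ↔ inM (x i) := by
    by_cases h : i = tau x
    · subst h
      rw [inv, Function.update_self, inM_rev]
    · rw [inv, Function.update_of_ne h]
  simp only [mset, mem_filter, mem_univ, true_and]
  exact h

lemma tau_inv (x : Fin (e + 1) → Fin (2 * m)) : tau (inv x) = tau x := by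
  unfold tau
  rw [mset_inv]

lemma inv_inv (x : Fin (e + 1) → Fin (2 * m)) : inv (inv x) = x := by
  conv_lhs => rw [inv]
  rw [tau_inv]
  simp [inv]

lemma suf_inv (hm : 2 ≤ m) (x : Fin (e + 1) → Fin (2 * m)) : suf hm (inv x) = suf hm x := by
  funext i
  unfold suf
  rw [mset_inv, tau_inv]
  split_ifs with h
  · rw [inv, Function.update_of_ne (ne_of_gt h.2)]
  · rfl

lemma col_inv (hm : 2 ≤ m) (b : (Fin e → Fin (2 * m - 1)) → Bool)
    (x : Fin (e + 1) → Fin (2 * m)) : col hm b (inv x) = !(col hm b x) := by
  unfold col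
  rw [suf_inv, tau_inv]
  have h1 : decide (m ≤ (inv x (tau x)).1) = !(decide (m ≤ (x (tau x)).1)) := by
    rw [inv, Function.update_self, Fin.val_rev, ← decide_not]
    congr 1
    have := (x (tau x)).2
    simp only [eq_iff_iff]
    omega
  rw [h1]
  cases b (suf hm x) <;> cases decide (m ≤ (x (tau x)).1) <;> rfl

lemma tau_eq {x : Fin (e + 1) → Fin (2 * m)} {j : Fin (e + 1)} (hj : inM (x j))
    (hlt : ∀ i < j, ¬ inM (x i)) : tau x = j ∧ (mset x).Nonempty := by
  have hmem : j ∈ mset x := by simp [mset, hj]
  have hne : (mset x).Nonempty := ⟨j, hmem⟩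
  refine ⟨?_, hne⟩
  rw [tau, dif_pos hne]
  apply le_antisymm (min'_le _ _ hmem)
  apply le_min'
  intro i hi
  by_contra hcon
  rw [not_le] at hcon
  exact hlt i hcon (by simpa [mset] using hi)

lemma col_pr (hm : 2 ≤ m) {b : (Fin e → Fin (2 * m - 1)) → Bool} (hb : Pr (Fin e) (2 * m - 1) b) :
    Pr (Fin (e + 1)) (2 * m) (col hm b) := by
  classical
  intro x hx c
  obtain ⟨hx1, i0, hi0⟩ := hx
  let t1 : Fin (2 * m) := ⟨m - 1, by omega⟩
  let t2 : Fin (2 * m) := ⟨m, by omega⟩
  have ht1 : inM t1 := by left; show m - 1 + 1 = m; omega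
  have ht2 : inM t2 := by right; rfl
  -- the coordinates which are active or constant in the middle pair
  let J : Finset (Fin (e + 1)) := univ.filter fun i => inM (x t1 i)
  have hact : ∀ i, (¬ ∃ a, ∀ t, x t i = a) → (∀ t, x t i = t) ∨ (∀ t, x t i = Fin.rev t) := by
    intro i hi
    rcases hx1 i with h | h
    · exact absurd h hi
    · exact h
  have hi0J : i0 ∈ J := by
    simp only [J, mem_filter, mem_univ, true_and]
    rcases hact i0 hi0 with h | h
    · rw [h]; exact ht1
    · rw [h, inM_rev]; exact ht1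
  have hJne : J.Nonempty := ⟨i0, hi0J⟩
  set j := J.min' hJne with hj
  have hjJ : inM (x t1 j) := by
    have := J.min'_mem hJne
    simpa [J] using this
  have hjlt : ∀ i < j, ¬ inM (x t1 i) := by
    intro i hi hcon
    exact absurd (J.min'_le i (by simpa [J] using hcon)) (not_le.2 hi)
  -- coordinates before `j` are constant and not in the middle pair
  have hbefore : ∀ i < j, ∀ t, x t i = x t1 i := by
    intro i hi t
    rcases hx1 i with ⟨a, ha⟩ | h | h
    · rw [ha, ha]
    · exact absurd (show inM (x t1 i) by rw [h]; exact ht1) (hjlt i hi)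
    · exact absurd (show inM (x t1 i) by rw [h, inM_rev]; exact ht1) (hjlt i hi)
  by_cases hjc : ∃ a, ∀ t, x t j = a
  · -- the first one is constant
    obtain ⟨a, ha⟩ := hjc
    have htau : ∀ t, tau (x t) = j ∧ (mset (x t)).Nonempty := by
      intro t
      apply tau_eq
      · rw [ha t, ← ha t1]; exact hjJ
      · intro i hi
        rw [hbefore i hi]
        exact hjlt i hi
    have hcol : ∀ t, col hm b (x t) = xor (b (suf hm (x t))) (decide (m ≤ a.1)) := by
      intro t
      rw [col, (htau t).1, ha]
    have hi0j : j < i0 := by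
      apply lt_of_le_of_ne (J.min'_le i0 hi0J)
      intro h
      apply hi0
      rw [← h]
      exact ⟨a, ha⟩
    have hline : LineMap (2 * m - 1) fun s => suf hm (x (lft s)) := by
      have hval : ∀ (i : Fin e) (s : Fin (2 * m - 1)), j < i.succ →
          suf hm (x (lft s)) i = pi hm (x (lft s) i.succ) := by
        intro i s hji
        rw [suf, if_pos ⟨(htau _).2, by rw [(htau _).1]; exact hji⟩]
      refine ⟨fun i => ?_, ?_⟩
      · by_cases hji : j < i.succ
        · rcases hx1 i.succ with ⟨a', ha'⟩ | h | h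
          · left
            exact ⟨pi hm a', fun s => (hval i s hji).trans (by rw [ha'])⟩
          · right; left
            exact fun s => (hval i s hji).trans (by rw [h, pi_lft])
          · right; right
            exact fun s => (hval i s hji).trans (by rw [h, pi_rev_lft])
        · left
          refine ⟨⟨0, by omega⟩, fun s => ?_⟩
          show suf hm (x (lft s)) i = _
          rw [suf, if_neg]
          rintro ⟨-, h⟩
          rw [(htau _).1] at h
          exact hji h
      · have hne0 : i0 ≠ 0 := by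
          rintro rfl
          exact absurd hi0j (Fin.not_lt_zero j)
        obtain ⟨i, rfl⟩ := Fin.exists_succ_eq.2 hne0
        refine ⟨i, nonconst_of (by omega) ?_⟩
        rcases hact _ hi0 with h | h
        · left
          exact fun s => (hval i s hi0j).trans (by rw [h, pi_lft])
        · right
          exact fun s => (hval i s hi0j).trans (by rw [h, pi_rev_lft])
    obtain ⟨s, hs⟩ := hb _ hline (xor c (decide (m ≤ a.1)))
    refine ⟨lft s, fun h => hs ?_⟩
    rw [hcol] at h
    rw [← h]
    cases b (suf hm (x (lft s))) <;> cases decide (m ≤ a.1) <;> rfl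
  · -- the first one is active
    have hM12 : ∀ i, inM (x t1 i) → inM (x t2 i) := by
      intro i hi
      rcases hx1 i with ⟨a, ha⟩ | h | h
      · rw [ha t2, ← ha t1]; exact hi
      · rw [h]; exact ht2
      · rw [h, inM_rev]; exact ht2
    have h1 := tau_eq hjJ hjlt
    have h2 : tau (x t2) = j ∧ (mset (x t2)).Nonempty := by
      apply tau_eq (hM12 j hjJ)
      intro i hi
      rw [hbefore i hi]
      exact hjlt i hi
    have hsuf : suf hm (x t1) = suf hm (x t2) := by
      funext i
      unfold suf
      rw [h1.1, h2.1]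
      by_cases hji : j < i.succ
      · rw [if_pos ⟨h1.2, hji⟩, if_pos ⟨h2.2, hji⟩]
        rcases hx1 i.succ with ⟨a, ha⟩ | h | h
        · rw [ha, ha]
        · rw [h, h]; exact pi_inM hm ht1 ht2
        · rw [h, h]; exact pi_inM hm ((inM_rev _).2 ht1) ((inM_rev _).2 ht2)
      · rw [if_neg (fun h => hji h.2), if_neg (fun h => hji h.2)]
    have hside : decide (m ≤ (x t1 j).1) ≠ decide (m ≤ (x t2 j).1) := by
      rcases hact j hjc with h | h
      · rw [h, h]
        have e1 : ¬ m ≤ t1.1 := by show ¬ m ≤ m - 1; omega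
        have e2 : m ≤ t2.1 := le_refl m
        simp [e1, e2]
      · rw [h, h, Fin.val_rev, Fin.val_rev]
        have e1 : m ≤ 2 * m - (t1.1 + 1) := by show m ≤ 2 * m - (m - 1 + 1); omega
        have e2 : ¬ m ≤ 2 * m - (t2.1 + 1) := by show ¬ m ≤ 2 * m - (m + 1); omega
        simp [e1, e2]
    have hne : col hm b (x t1) ≠ col hm b (x t2) := by
      rw [col, col, h1.1, h2.1, hsuf]
      intro h
      apply hside
      revert h
      cases b (suf hm (x t2)) <;> cases decide (m ≤ (x t1 j).1) <;>
        cases decide (m ≤ (x t2 j).1) <;> simp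
    by_cases hc : col hm b (x t1) = c
    · exact ⟨t2, fun h => hne (hc.trans h.symm)⟩
    · exact ⟨t1, hc⟩

end Even_

/-- Even `n`: a proper colouring of `[n - 1]^e` gives a proper halving colouring of
`[n]^(e + 1)`. -/
theorem even_case {m e : ℕ} (hm : 2 ≤ m) {b : (Fin e → Fin (2 * m - 1)) → Bool}
    (hb : Pr (Fin e) (2 * m - 1) b) :
    ∃ c : (Fin (e + 1) → Fin (2 * m)) → Bool, IsDrawing (2 * m) (e + 1) c := by
  have h0 : imb (Even_.col hm b) = 0 :=
    imb_zero_of_inv Even_.inv Even_.inv_inv (Even_.col_inv hm b)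
  exact ⟨Even_.col hm b, drawing_of_imb (Even_.col_pr hm hb) (by omega) (by omega)⟩

end Pool.Agent.HJH
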