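import Mathlib

set_option autoImplicit false

/-!
# Balancing: choice of the imbalances of the classes
-/

namespace Pool.Agent.HJH

open Finset

/-- `s` is the sum of `a` integers with the property `V`. -/
def Rch (V : ℤ → Prop) (a : ℕ) (s : ℤ) : Prop :=
  ∃ v : Fin a → ℤ, (∀ i, V (v i)) ∧ ∑ i, v i = s

namespace Sel_

variable {V : ℤ → Prop}

lemma rch_zero : Rch V 0 0 := ⟨fun _ => 0, fun i => i.elim0, by simp⟩

lemma rch_add {a b : ℕ} {s t : ℤ} (h1 : Rch V a s) (h2 : Rch V b t) : Rch V (a + b) (s + t) := by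
  obtain ⟨v, hv, rfl⟩ := h1
  obtain ⟨w, hw, rfl⟩ := h2
  refine ⟨Fin.append v w, fun i => ?_, ?_⟩
  · refine Fin.addCases (fun j => ?_) (fun j => ?_) i
    · rw [Fin.append_left]; exact hv j
    · rw [Fin.append_right]; exact hw j
  · rw [Fin.sum_univ_add]
    simp

lemma rch_one {v : ℤ} (h : V v) : Rch V 1 v := ⟨fun _ => v, fun _ => h, by simp⟩

lemma rch_neg (hneg : ∀ v, V v → V (-v)) {a : ℕ} {s : ℤ} (h : Rch V a s) : Rch V a (-s) := by
  obtain ⟨v, hv, rfl⟩ := h
  exact ⟨fun i => - v i, fun i => hneg _ (hv i), by simp⟩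

lemma rch_const {v : ℤ} (h : V v) (a : ℕ) : Rch V a (a * v) :=
  ⟨fun _ => v, fun _ => h, by simp⟩

lemma rch_even (hneg : ∀ v, V v → V (-v)) {v : ℤ} (h : V v) (c : ℕ) : Rch V (c + c) 0 := by
  have h1 := rch_add (rch_const h c) (rch_neg hneg (rch_const h c))
  rwa [add_neg_cancel] at h1

lemma fill (hneg : ∀ v, V v → V (-v)) {v : ℤ} (h : V v) {a b : ℕ} {s : ℤ} (hb : Rch V b s)
    (hab : b ≤ a) : ∃ r, (r = 0 ∨ V r) ∧ Rch V a (s + r) := by
  obtain ⟨c, rfl⟩ := Nat.exists_eq_add_of_le hab
  rcases Nat.even_or_odd c with ⟨k, hk⟩ | ⟨k, hk⟩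
  · refine ⟨0, Or.inl rfl, ?_⟩
    rw [hk]
    exact rch_add hb (rch_even hneg h k)
  · refine ⟨v, Or.inr h, ?_⟩
    rw [hk]
    have := rch_add (rch_even hneg h k) (rch_one h)
    rw [zero_add, ← two_mul] at this
    exact rch_add hb this

lemma fill0 (h : V 0) {a b : ℕ} {s : ℤ} (hb : Rch V b s) (hab : b ≤ a) : Rch V a s := by
  obtain ⟨c, rfl⟩ := Nat.exists_eq_add_of_le hab
  have := rch_add hb (rch_const h c)
  simpa using this

lemma assign {α : Type*} [DecidableEq α] (A : Finset α) {s : ℤ} (h : Rch V A.card s) :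
    ∃ v : α → ℤ, (∀ x ∈ A, V (v x)) ∧ ∑ x ∈ A, v x = s := by
  obtain ⟨w, hw, rfl⟩ := h
  refine ⟨fun x => if hx : x ∈ A then w (A.equivFin ⟨x, hx⟩) else 0, fun x hx => ?_, ?_⟩
  · simp only [dif_pos hx]; exact hw _
  · rw [← sum_attach]
    rw [← Equiv.sum_comp A.equivFin w]
    refine sum_congr rfl fun x _ => ?_
    rw [dif_pos x.2]

end Sel_

open Sel_

/-- The classes of size `k`. -/
def Ak (e k : ℕ) : Finset (Finset (Fin (e + 1))) :=
  univ.filter fun S => S.card = k ∧ S ≠ {0}

lemma card_Ak_one (e : ℕ) : (Ak e 1).card = e := by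
  have h : Ak e 1 = (powersetCard 1 (univ : Finset (Fin (e + 1)))).erase {0} := by
    ext S
    simp only [Ak, mem_filter, mem_univ, true_and, mem_erase, mem_powersetCard_univ]
    tauto
  rw [h, card_erase_of_mem (by simp), card_powersetCard]
  simp

lemma card_Ak (e k : ℕ) (hk : 2 ≤ k) : (Ak e k).card = (e + 1).choose k := by
  have h : Ak e k = powersetCard k (univ : Finset (Fin (e + 1))) := by
    ext S
    simp only [Ak, mem_filter, mem_univ, true_and, mem_powersetCard_univ]
    constructor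
    · exact fun h => h.1
    · intro h
      refine ⟨h, ?_⟩
      rintro rfl
      rw [card_singleton] at h
      omega
  rw [h, card_powersetCard]
  simp

lemma choose_ge {e k : ℕ} (h1 : 1 ≤ k) (h2 : k ≤ e) : e + 1 ≤ (e + 1).choose k := by
  induction e generalizing k with
  | zero => omega
  | succ e ih =>
    obtain ⟨j, rfl⟩ : ∃ j, k = j + 1 := ⟨k - 1, by omega⟩
    rw [Nat.choose_succ_succ, Nat.succ_eq_add_one]
    by_cases hj : j + 1 ≤ e
    · have h3 := ih (k := j + 1) (by omega) hj
      have h4 : 0 < (e + 1).choose j := Nat.choose_pos (by omega)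
      omega
    · have hje : j = e := by omega
      subst hje
      rw [Nat.choose_self]
      have : (j + 1).choose j = j + 1 := by
        rw [← Nat.choose_symm_of_eq_add (show j + 1 = 1 + j by omega)]
        simp
      omega

theorem selection {N e : ℕ} {W : ℕ → ℤ → Prop} (hneg : ∀ k v, W k v → W k (-v))
    (hsl : ∀ k v, W (k + 1) v → Rch (W k) N v) (h0 : W 1 0) (h1 : W 0 1) (hN : 1 ≤ N)
    (he : 2 ≤ e) (hNe : N ≤ e + 1) {J : ℤ} (hJ : W e J) :
    ∃ v : Finset (Fin (e + 1)) → ℤ, v ∅ = N * J ∧ v {0} = -J ∧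
      (∀ S, S ≠ ∅ → S ≠ {0} → W (e + 1 - S.card) (v S)) ∧ ∑ S, v S = 1 := by
  classical
  have hne : ∀ j ≤ e, ∃ v, W j v := by
    intro j hj
    induction hj using Nat.decreasingInduction with
    | self => exact ⟨J, hJ⟩
    | of_succ k hk ih =>
      obtain ⟨v, hv⟩ := ih
      obtain ⟨w, hw, -⟩ := hsl k v hv
      exact ⟨w ⟨0, by omega⟩, hw _⟩
  -- the chain
  have chain : ∀ k, 1 ≤ k → k + 1 ≤ e → ∃ s : ℕ → ℤ,
      (∀ j, 1 ≤ j → j ≤ k → Rch (W (e + 1 - j)) (Ak e j).card (s j)) ∧
      (((N : ℤ) - 1) * J + ∑ j ∈ Icc 1 k, s j = 0 ∨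
        W (e + 1 - k) (((N : ℤ) - 1) * J + ∑ j ∈ Icc 1 k, s j)) := by
    intro k hk
    induction k, hk using Nat.le_induction with
    | base =>
      intro _
      have hb := rch_neg (hneg e) (rch_const hJ (N - 1))
      obtain ⟨r, hr, hR⟩ := fill (hneg e) hJ hb (show N - 1 ≤ e by omega)
      refine ⟨fun _ => -(((N - 1 : ℕ) : ℤ) * J) + r, fun j hj1 hj2 => ?_, ?_⟩
      · obtain rfl : j = 1 := by omega
        rw [card_Ak_one, show e + 1 - 1 = e by omega]
        exact hR
      · rw [Icc_self, sum_singleton, show e + 1 - 1 = e by omega]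
        have : ((N : ℤ) - 1) * J + (-(((N - 1 : ℕ) : ℤ) * J) + r) = r := by
          push_cast [Nat.cast_sub hN]; ring
        rw [this]
        exact hr
    | succ k hk ih =>
      intro hke
      obtain ⟨s, hs, hT⟩ := ih (by omega)
      set T := ((N : ℤ) - 1) * J + ∑ j ∈ Icc 1 k, s j with hTdef
      obtain ⟨v0, hv0⟩ := hne (e - k) (by omega)
      have hcard : N ≤ (Ak e (k + 1)).card := by
        rw [card_Ak e (k + 1) (by omega)]
        exact hNe.trans (choose_ge (by omega) (by omega))
      obtain ⟨r, hr, hR⟩ : ∃ r, (r = 0 ∨ W (e - k) r) ∧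
          Rch (W (e - k)) (Ak e (k + 1)).card (-T + r) := by
        rcases hT with hT | hT
        · obtain ⟨r, hr, hR⟩ := fill (hneg _) hv0 (rch_zero (V := W (e - k)))
            (Nat.zero_le (Ak e (k + 1)).card)
          refine ⟨r, hr, ?_⟩
          rw [hT, neg_zero]
          exact hR
        · rw [show e + 1 - k = (e - k) + 1 by omega] at hT
          have h3 := rch_neg (hneg _) (hsl _ _ hT)
          exact fill (hneg _) hv0 h3 hcard
      refine ⟨fun j => if j ≤ k then s j else -T + r, fun j hj1 hj2 => ?_, ?_⟩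
      · by_cases hjk : j ≤ k
        · simp only [hjk, if_true]
          exact hs j hj1 hjk
        · simp only [hjk, if_false]
          obtain rfl : j = k + 1 := by omega
          rw [show e + 1 - (k + 1) = e - k by omega]
          exact hR
      · rw [sum_Icc_succ_top (by omega),
          if_neg (by omega), show e + 1 - (k + 1) = e - k by omega]
        have h4 : ∑ j ∈ Icc 1 k, (if j ≤ k then s j else -T + r) = ∑ j ∈ Icc 1 k, s j := by
          refine sum_congr rfl fun j hj => ?_
          rw [if_pos (mem_Icc.1 hj).2]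
        rw [h4]
        have h5 : ((N : ℤ) - 1) * J + (∑ j ∈ Icc 1 k, s j + (-T + r)) = r := by
          rw [hTdef]; ring
        rw [h5]
        exact hr
  obtain ⟨s, hs, hT⟩ := chain (e - 1) (by omega) (by omega)
  set T := ((N : ℤ) - 1) * J + ∑ j ∈ Icc 1 (e - 1), s j with hTdef
  -- all levels
  let s' : ℕ → ℤ := fun j => if j ≤ e - 1 then s j else if j = e then -T else 1
  have hs' : ∀ j, 1 ≤ j → j ≤ e + 1 → Rch (W (e + 1 - j)) (Ak e j).card (s' j) := by
    intro j hj1 hj2
    by_cases hj : j ≤ e - 1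
    · simp only [s', hj, if_true]
      exact hs j hj1 hj
    · by_cases hje : j = e
      · subst hje
        simp only [s', hj, if_false, if_true]
        rw [show j + 1 - j = 1 by omega, card_Ak j j he]
        have hc : N ≤ (j + 1).choose j := hNe.trans (choose_ge (by omega) le_rfl)
        rcases hT with hT | hT
        · rw [hT, neg_zero]
          exact fill0 h0 rch_zero (Nat.zero_le _)
        · rw [show j + 1 - (j - 1) = 1 + 1 by omega] at hT
          exact fill0 h0 (rch_neg (hneg 1) (hsl 1 _ hT)) hc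
      · obtain rfl : j = e + 1 := by omega
        simp only [s', hj, hje, if_false]
        rw [card_Ak e (e + 1) (by omega), Nat.choose_self, Nat.sub_self]
        exact rch_one h1
  have hsum : ((N : ℤ) - 1) * J + ∑ j ∈ Icc 1 (e + 1), s' j = 1 := by
    rw [sum_Icc_succ_top (by omega)]
    obtain ⟨e', rfl⟩ : ∃ e', e = e' + 1 := ⟨e - 1, by omega⟩
    rw [sum_Icc_succ_top (by omega)]
    have h6 : ∑ j ∈ Icc 1 e', s' j = ∑ j ∈ Icc 1 e', s j := by
      refine sum_congr rfl fun j hj => ?_
      have := (mem_Icc.1 hj).2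
      simp only [s']
      rw [if_pos (by omega)]
    rw [h6]
    have h7 : s' (e' + 1 + 1) = 1 := by
      simp only [s']
      rw [if_neg (by omega), if_neg (by omega)]
    have h8 : s' (e' + 1) = -T := by
      simp only [s']
      rw [if_neg (by omega), if_pos trivial]
    rw [h7, h8, hTdef, show e' + 1 - 1 = e' by omega]
    ring
  -- the assignment
  have hass : ∀ k : ℕ, ∃ v : Finset (Fin (e + 1)) → ℤ, 1 ≤ k → k ≤ e + 1 →
      (∀ S ∈ Ak e k, W (e + 1 - k) (v S)) ∧ ∑ S ∈ Ak e k, v S = s' k := by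
    intro k
    by_cases hk : 1 ≤ k ∧ k ≤ e + 1
    · obtain ⟨v, hv⟩ := assign (Ak e k) (hs' k hk.1 hk.2)
      exact ⟨v, fun _ _ => hv⟩
    · exact ⟨fun _ => 0, fun a b => absurd ⟨a, b⟩ hk⟩
  choose v hv using hass
  let u : Finset (Fin (e + 1)) → ℤ := fun S =>
    if S = ∅ then N * J else if S = {0} then -J else v S.card S
  have hu0 : u ∅ = N * J := by simp [u]
  have hu1 : u {0} = -J := by simp [u]
  have hu2 : ∀ S, S ≠ ∅ → S ≠ {0} → u S = v S.card S := by
    intro S h h'
    simp [u, h, h']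
  have hcard : ∀ S : Finset (Fin (e + 1)), S ≠ ∅ → 1 ≤ S.card ∧ S.card ≤ e + 1 := by
    intro S hS
    refine ⟨card_pos.2 (nonempty_iff_ne_empty.2 hS), ?_⟩
    simpa using card_le_univ S
  refine ⟨u, hu0, hu1, fun S h h' => ?_, ?_⟩
  · rw [hu2 S h h']
    have := hcard S h
    exact ((hv S.card) this.1 this.2).1 S (by simp [Ak, h'])
  · have h9 : ∑ S, u S = u ∅ + (u {0} +
        ∑ S ∈ univ.filter (fun S : Finset (Fin (e + 1)) => S ≠ ∅ ∧ S ≠ {0}), u S) := by
      have hset : (univ : Finset (Finset (Fin (e + 1)))) =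
          insert ∅ (insert {0} (univ.filter fun S => S ≠ ∅ ∧ S ≠ {0})) := by
        ext S
        simp only [mem_univ, mem_insert, mem_filter, true_and, true_iff]
        tauto
      rw [hset, sum_insert, sum_insert, ← hset]
      · simp
      · simp only [mem_insert, mem_filter, mem_univ, true_and, not_or]
        refine ⟨fun h => ?_, fun h => h.1 rfl⟩
        exact absurd h.symm (singleton_ne_empty _)
    rw [h9, hu0, hu1]
    have h10 : ∑ S ∈ univ.filter (fun S : Finset (Fin (e + 1)) => S ≠ ∅ ∧ S ≠ {0}), u S =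
        ∑ k ∈ Icc 1 (e + 1), s' k := by
      rw [← sum_fiberwise_of_maps_to (g := fun S : Finset (Fin (e + 1)) => S.card)
        (t := Icc 1 (e + 1))]
      · refine sum_congr rfl fun k hk => ?_
        rw [mem_Icc] at hk
        rw [← ((hv k) hk.1 hk.2).2]
        refine sum_congr ?_ ?_
        · ext S
          simp only [Ak, mem_filter, mem_univ, true_and]
          constructor
          · rintro ⟨⟨-, h2⟩, h3⟩
            exact ⟨h3, h2⟩
          · rintro ⟨h3, h2⟩
            refine ⟨⟨?_, h2⟩, h3⟩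
            rintro rfl
            simp at h3
            omega
        · intro S hS
          simp only [Ak, mem_filter, mem_univ, true_and] at hS
          rw [hu2 S _ hS.2, hS.1]
          rintro rfl
          have := hS.1
          simp at this
          omega
      · intro S hS
        simp only [mem_filter, mem_univ, true_and] at hS
        exact mem_Icc.2 (hcard S hS.1)
    rw [h10, ← hsum]
    ring

end Pool.Agent.HJH
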