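import Mathlib
import Pool.Agent.HJH.Basic
import Pool.Agent.HJH.Sel

set_option autoImplicit false

/-!
# Odd `n`

`n = 2 m + 1`. A line without its middle point lies in one class: the class of `x` is the set of
the coordinates with the middle value, the class of the set `S` is a copy of `[n - 1]^(Sᶜ)`.
-/

namespace Pool.Agent.HJH

open Finset Pool.Agent.TTT

namespace Odd_

variable {m d : ℕ}

/-- Removal of the middle value. -/
def sq (hm : 1 ≤ m) (v : Fin (2 * m + 1)) : Fin (2 * m) :=
  ⟨if v.1 < m then v.1 else v.1 - 1, by have := v.2; split <;> omega⟩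

/-- The inverse. -/
def uns (s : Fin (2 * m)) : Fin (2 * m + 1) :=
  ⟨if s.1 < m then s.1 else s.1 + 1, by have := s.2; split <;> omega⟩

lemma sq_uns (hm : 1 ≤ m) (s : Fin (2 * m)) : sq hm (uns s) = s := by
  ext
  simp only [sq, uns]
  split_ifs <;> omega

lemma uns_ne (s : Fin (2 * m)) : (uns s).1 ≠ m := by
  simp only [uns]
  split_ifs <;> omega

lemma uns_sq (hm : 1 ≤ m) {v : Fin (2 * m + 1)} (hv : v.1 ≠ m) : uns (sq hm v) = v := by
  ext
  simp only [sq, uns]
  split_ifs <;> omega

lemma sq_rev_uns (hm : 1 ≤ m) (s : Fin (2 * m)) : sq hm (Fin.rev (uns s)) = Fin.rev s := by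
  ext
  have := s.2
  simp only [sq, uns, Fin.val_rev]
  split_ifs <;> omega

/-- The class of `x`. -/
def SS (x : Fin d → Fin (2 * m + 1)) : Finset (Fin d) := univ.filter fun i => (x i).1 = m

/-- The colouring given by colourings of the classes. -/
def colO (hm : 1 ≤ m) (g : ∀ S : Finset (Fin d), ({i // i ∉ S} → Fin (2 * m)) → Bool)
    (x : Fin d → Fin (2 * m + 1)) : Bool := g (SS x) fun i => sq hm (x i.1)

lemma colO_eq (hm : 1 ≤ m) (g : ∀ S : Finset (Fin d), ({i // i ∉ S} → Fin (2 * m)) → Bool)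
    {x : Fin d → Fin (2 * m + 1)} {S : Finset (Fin d)} (h : SS x = S) :
    colO hm g x = g S fun i => sq hm (x i.1) := by
  subst h
  rfl

/-- Summation over the classes. -/
lemma imb_colO (hm : 1 ≤ m) (g : ∀ S : Finset (Fin d), ({i // i ∉ S} → Fin (2 * m)) → Bool) :
    imb (colO hm g) = ∑ S, imb (g S) := by
  classical
  rw [imb, ← sum_fiberwise (univ : Finset (Fin d → Fin (2 * m + 1))) SS]
  refine sum_congr rfl fun S _ => ?_
  rw [imb]
  refine sum_bij' (fun x _ => fun i : {i // i ∉ S} => sq hm (x i.1))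
    (fun z _ => fun i => if h : i ∉ S then uns (z ⟨i, h⟩) else ⟨m, by omega⟩) ?_ ?_ ?_ ?_ ?_
  · intro x _
    exact mem_univ _
  · intro z _
    rw [mem_filter]
    refine ⟨mem_univ _, ?_⟩
    ext i
    simp only [SS, mem_filter, mem_univ, true_and]
    by_cases h : i ∉ S
    · rw [dif_pos h]
      exact ⟨fun h' => absurd h' (uns_ne _), fun h' => absurd h' h⟩
    · rw [dif_neg h]
      exact ⟨fun _ => not_not.1 h, fun _ => rfl⟩
  · intro x hx
    rw [mem_filter] at hx
    funext i
    by_cases h : i ∉ S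
    · simp only [dif_pos h]
      apply uns_sq
      intro h'
      apply h
      rw [← hx.2]
      simpa [SS] using h'
    · simp only [dif_neg h]
      have h' : i ∈ SS x := by rw [hx.2]; exact not_not.1 h
      simp only [SS, mem_filter, mem_univ, true_and] at h'
      exact Fin.ext h'.symm
  · intro z _
    funext i
    simp only [dif_pos i.2]
    exact sq_uns hm _
  · intro x hx
    rw [mem_filter] at hx
    rw [colO_eq hm g hx.2]

/-- The class of a line. -/
def SL (x : Fin (2 * m + 1) → Fin d → Fin (2 * m + 1)) : Finset (Fin d) :=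
  univ.filter fun i => ∀ t, (x t i).1 = m

lemma SS_line {x : Fin (2 * m + 1) → Fin d → Fin (2 * m + 1)}
    (hx : LineMap (2 * m + 1) x) {t : Fin (2 * m + 1)} (ht : t.1 ≠ m) : SS (x t) = SL x := by
  ext i
  simp only [SS, SL, mem_filter, mem_univ, true_and]
  refine ⟨fun h => ?_, fun h => h t⟩
  rcases hx.1 i with ⟨a, ha⟩ | h' | h'
  · intro t'
    rw [ha] at h ⊢
    exact h
  · rw [h'] at h
    exact absurd h ht
  · rw [h', Fin.val_rev] at h
    have := t.2
    omega

lemma line_restrict (hm : 1 ≤ m) {x : Fin (2 * m + 1) → Fin d → Fin (2 * m + 1)}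
    (hx : LineMap (2 * m + 1) x) {κ : Type} (f : κ → Fin d)
    (hf : ∃ k, ¬ ∃ a, ∀ t, x t (f k) = a) :
    LineMap (2 * m) fun s (k : κ) => sq hm (x (uns s) (f k)) := by
  refine ⟨fun k => ?_, ?_⟩
  · rcases hx.1 (f k) with ⟨a, ha⟩ | h | h
    · exact Or.inl ⟨sq hm a, fun s => by simp only [ha]⟩
    · exact Or.inr (Or.inl fun s => by simp only [h, sq_uns])
    · exact Or.inr (Or.inr fun s => by simp only [h, sq_rev_uns])
  · obtain ⟨k, hk⟩ := hf
    refine ⟨k, nonconst_of (by omega) ?_⟩
    rcases hx.1 (f k) with h | h | h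
    · exact absurd h hk
    · exact Or.inl fun s => by simp only [h, sq_uns]
    · exact Or.inr fun s => by simp only [h, sq_rev_uns]

/-- The family: all classes but the empty one are properly coloured; the empty class and the class
`{0}` are coloured by a proper colouring of the last `e` coordinates, with opposite signs. -/
theorem colO_pr {e : ℕ} (hm : 1 ≤ m) {β : (Fin e → Fin (2 * m)) → Bool}
    (hβ : Pr (Fin e) (2 * m) β)
    (g : ∀ S : Finset (Fin (e + 1)), ({i // i ∉ S} → Fin (2 * m)) → Bool)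
    (hg : ∀ S, S ≠ ∅ → Pr {i // i ∉ S} (2 * m) (g S))
    (hg0 : ∀ z, g ∅ z = β fun i => z ⟨i.succ, notMem_empty _⟩)
    (hg1 : ∀ z, g {0} z = !(β fun i => z ⟨i.succ, by simp⟩)) :
    Pr (Fin (e + 1)) (2 * m + 1) (colO hm g) := by
  classical
  intro x hx c
  obtain ⟨i0, hi0⟩ := hx.2
  by_cases hS : SL x = ∅
  · by_cases hact : ∃ i : Fin e, ¬ ∃ a, ∀ t, x t i.succ = a
    · -- an active coordinate among the last ones
      obtain ⟨s, hs⟩ := hβ _ (line_restrict hm hx (fun i : Fin e => i.succ) hact) c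
      refine ⟨uns s, fun h => hs ?_⟩
      rw [← h, colO_eq hm g ((SS_line hx (uns_ne s)).trans hS), hg0]
    · -- only the first coordinate is active
      push Not at hact
      have hmid : SS (x ⟨m, by omega⟩) = {0} := by
        ext i
        simp only [SS, mem_filter, mem_univ, true_and, mem_singleton]
        constructor
        · intro h
          by_contra hne
          obtain ⟨j, rfl⟩ := Fin.exists_succ_eq.2 hne
          obtain ⟨a, ha⟩ := hact j
          have : j.succ ∈ SL x := by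
            simp only [SL, mem_filter, mem_univ, true_and]
            intro t
            rw [ha] at h ⊢
            exact h
          rw [hS] at this
          exact notMem_empty _ this
        · rintro rfl
          have h0 : i0 = 0 := by
            by_contra hne
            obtain ⟨j, rfl⟩ := Fin.exists_succ_eq.2 hne
            exact hi0 (hact j)
          subst h0
          rcases hx.1 0 with h | h | h
          · exact absurd h hi0
          · rw [h]
          · rw [h, Fin.val_rev]
            simp only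
            omega
      have h1 : colO hm g (x ⟨0, by omega⟩) = !(colO hm g (x ⟨m, by omega⟩)) := by
        rw [colO_eq hm g hmid, hg1, Bool.not_not,
          colO_eq hm g ((SS_line hx (show (⟨0, by omega⟩ : Fin (2 * m + 1)).1 ≠ m by
            show 0 ≠ m; omega)).trans hS), hg0]
        congr 1
        funext i
        obtain ⟨a, ha⟩ := hact i
        rw [ha, ha]
      by_cases hc : colO hm g (x ⟨m, by omega⟩) = c
      · refine ⟨⟨0, by omega⟩, ?_⟩
        rw [h1, hc]
        cases c <;> simp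
      · exact ⟨_, hc⟩
  · have hi0S : i0 ∉ SL x := by
      intro h
      simp only [SL, mem_filter, mem_univ, true_and] at h
      exact hi0 ⟨⟨m, by omega⟩, fun t => Fin.ext (h t)⟩
    obtain ⟨s, hs⟩ := hg (SL x) hS _
      (line_restrict hm hx (fun i : {i // i ∉ SL x} => i.1) ⟨⟨i0, hi0S⟩, hi0⟩) c
    refine ⟨uns s, fun h => hs ?_⟩
    rw [← h, colO_eq hm g (SS_line hx (uns_ne s))]

/-! ### The possible imbalances -/

/-- `v` is the imbalance of a proper colouring of `[N]^k`. -/
def W (N k : ℕ) (v : ℤ) : Prop := ∃ c : (Fin k → Fin N) → Bool, Pr (Fin k) N c ∧ imb c = v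

lemma W_neg {N : ℕ} (k : ℕ) (v : ℤ) (h : W N k v) : W N k (-v) := by
  obtain ⟨c, hc, rfl⟩ := h
  exact ⟨_, pr_not hc, imb_not c⟩

lemma imb_cons {N k : ℕ} (c : (Fin (k + 1) → Fin N) → Bool) :
    imb c = ∑ a : Fin N, imb fun z : Fin k → Fin N => c (Fin.cons a z) := by
  simp only [imb]
  rw [← Fintype.sum_prod_type' (fun (a : Fin N) (z : Fin k → Fin N) =>
    if c (Fin.cons a z) = true then (1 : ℤ) else -1)]
  exact (Fintype.sum_equiv (Fin.consEquiv fun _ : Fin (k + 1) => Fin N) _ _ fun p => rfl).symm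

lemma W_slices {N : ℕ} (k : ℕ) (v : ℤ) (h : W N (k + 1) v) : Rch (W N k) N v := by
  obtain ⟨c, hc, rfl⟩ := h
  refine ⟨fun a => imb fun z : Fin k → Fin N => c (Fin.cons a z), fun a => ⟨_, ?_, rfl⟩,
    (imb_cons c).symm⟩
  intro x hx b
  refine hc (fun t => Fin.cons a (x t)) ⟨fun i => ?_, ?_⟩ b
  · refine Fin.cases ?_ (fun j => ?_) i
    · exact Or.inl ⟨a, fun t => rfl⟩
    · simpa using hx.1 j
  · obtain ⟨i, hi⟩ := hx.2
    exact ⟨i.succ, by simpa using hi⟩

lemma W_zero (N : ℕ) : W N 0 1 := by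
  refine ⟨fun _ => true, ?_, ?_⟩
  · rintro x ⟨-, i, -⟩
    exact i.elim0
  · simp [imb]

lemma W_one (hm : 1 ≤ m) : W (2 * m) 1 0 := by
  refine ⟨fun z => decide ((z 0).1 < m), ?_, ?_⟩
  · rintro x ⟨hx, i, hi⟩ b
    obtain rfl : i = 0 := Subsingleton.elim _ _
    have key : ∃ t t' : Fin (2 * m), (x t 0).1 < m ∧ ¬ (x t' 0).1 < m := by
      rcases hx 0 with h | h | h
      · exact absurd h hi
      · exact ⟨⟨0, by omega⟩, ⟨m, by omega⟩, by rw [h]; show 0 < m; omega,
          by rw [h]; show ¬ m < m; omega⟩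
      · refine ⟨⟨m, by omega⟩, ⟨0, by omega⟩, ?_, ?_⟩
        · rw [h, Fin.val_rev]; show 2 * m - (m + 1) < m; omega
        · rw [h, Fin.val_rev]; show ¬ 2 * m - (0 + 1) < m; omega
    obtain ⟨t, t', h1, h2⟩ := key
    cases b
    · exact ⟨t, by simp [h1]⟩
    · exact ⟨t', by simpa using h2⟩
  · refine imb_zero_of_inv (fun z i => Fin.rev (z i)) (fun z => by simp) fun z => ?_
    rw [← decide_not]
    congr 1
    rw [Fin.val_rev, eq_iff_iff]
    have := (z 0).2
    omega

lemma transport {N : ℕ} {ι κ : Type} [Fintype ι] [DecidableEq ι] [Fintype κ] [DecidableEq κ]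
    (ε : ι ≃ κ) {v : ℤ} (h : ∃ c : (κ → Fin N) → Bool, Pr κ N c ∧ imb c = v) :
    ∃ c : (ι → Fin N) → Bool, Pr ι N c ∧ imb c = v := by
  obtain ⟨c, hc, rfl⟩ := h
  refine ⟨fun z => c fun k => z (ε.symm k), ?_, ?_⟩
  · intro x hx b
    refine hc (fun t k => x t (ε.symm k)) ⟨fun k => hx.1 _, ?_⟩ b
    obtain ⟨i, hi⟩ := hx.2
    exact ⟨ε i, by simpa using hi⟩
  · rw [imb, imb]
    exact Fintype.sum_equiv (Equiv.arrowCongr ε (Equiv.refl (Fin N))) _ _ fun z => rfl

end Odd_

open Odd_

/-- Odd `n`, large dimension. -/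
theorem odd_case {m e : ℕ} (hm : 1 ≤ m) (he : 2 ≤ e) (hme : 2 * m ≤ e + 1)
    {β : (Fin e → Fin (2 * m)) → Bool} (hβ : Pr (Fin e) (2 * m) β) :
    ∃ c : (Fin (e + 1) → Fin (2 * m + 1)) → Bool, IsDrawing (2 * m + 1) (e + 1) c := by
  classical
  obtain ⟨v, hv0, hv1, hv2, hv3⟩ := selection (N := 2 * m) (e := e) (W := W (2 * m)) W_neg
    W_slices (W_one hm) (W_zero _) (by omega) he hme ⟨β, hβ, rfl⟩
  -- the colourings of the classes
  have hfam : ∀ S : Finset (Fin (e + 1)), ∃ c : ({i // i ∉ S} → Fin (2 * m)) → Bool,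
      (S ≠ ∅ → Pr {i // i ∉ S} (2 * m) c) ∧ imb c = v S ∧
      (∀ h : S = ∅, ∀ z, c z = β fun i => z ⟨i.succ, by rw [h]; exact notMem_empty _⟩) ∧
      (∀ h : S = {0}, ∀ z, c z = !(β fun i => z ⟨i.succ, by rw [h]; simp⟩)) := by
    intro S
    by_cases h0 : S = ∅
    · subst h0
      refine ⟨fun z => β fun i => z ⟨i.succ, notMem_empty _⟩, fun h => absurd rfl h, ?_,
        fun _ z => rfl, fun h => absurd h.symm (singleton_ne_empty _)⟩
      rw [hv0]
      let ε : {i : Fin (e + 1) // i ∉ (∅ : Finset (Fin (e + 1)))} ≃ Fin (e + 1) :=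
        ⟨fun i => i.1, fun i => ⟨i, notMem_empty _⟩, fun i => rfl, fun i => rfl⟩
      have h1 : imb (fun z : {i : Fin (e + 1) // i ∉ (∅ : Finset (Fin (e + 1)))} → Fin (2 * m) =>
          β fun i => z ⟨i.succ, notMem_empty _⟩) =
          imb (fun z : Fin (e + 1) → Fin (2 * m) => β fun i => z i.succ) := by
        rw [imb, imb]
        exact Fintype.sum_equiv (Equiv.arrowCongr ε (Equiv.refl (Fin (2 * m)))) _ _ fun z => rfl
      rw [h1, imb_cons]
      simp
    · by_cases h1 : S = {0}
      · subst h1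
        let ε : {i : Fin (e + 1) // i ∉ ({0} : Finset (Fin (e + 1)))} ≃ Fin e :=
          { toFun := fun i => i.1.pred (by simpa using i.2)
            invFun := fun i => ⟨i.succ, by simp⟩
            left_inv := fun i => by ext; simp
            right_inv := fun i => by simp }
        have hε : ∀ i, (ε.symm i).1 = i.succ := fun i => rfl
        refine ⟨fun z => !(β fun i => z ⟨i.succ, by simp⟩), fun _ => ?_, ?_,
          fun h => absurd h (singleton_ne_empty _), fun _ z => rfl⟩
        · intro x hx b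
          refine pr_not hβ (fun t i => x t (ε.symm i)) ⟨fun k => hx.1 _, ?_⟩ b
          obtain ⟨i, hi⟩ := hx.2
          exact ⟨ε i, by simp only [Equiv.symm_apply_apply]; exact hi⟩
        · rw [hv1, ← imb_not β, imb, imb]
          exact Fintype.sum_equiv (Equiv.arrowCongr ε (Equiv.refl (Fin (2 * m)))) _ _ fun z => rfl
      · have hcard : Fintype.card {i // i ∉ S} = e + 1 - S.card := by
          rw [Fintype.card_subtype_compl]
          simp
        obtain ⟨c, hc1, hc2⟩ := transport (Fintype.equivFinOfCardEq hcard) (hv2 S h0 h1)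
        exact ⟨c, fun _ => hc1, hc2, fun h => absurd h h0, fun h => absurd h h1⟩
  choose g hg using hfam
  refine ⟨colO hm g, drawing_of_imb (colO_pr hm hβ g (fun S hS => (hg S).1 hS)
    (fun z => (hg ∅).2.2.1 rfl z) (fun z => (hg {0}).2.2.2 rfl z)) ?_ ?_⟩
  · rw [imb_colO, sum_congr rfl fun S _ => (hg S).2.1, hv3]
  · rw [imb_colO, sum_congr rfl fun S _ => (hg S).2.1, hv3]
    norm_num

end Pool.Agent.HJH
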