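import Mathlib
import Pool.Agent.HJH.Defs
import Pool.Agent.HJH.Even
import Pool.Agent.HJH.Odd
import Pool.Agent.HJL.Colour

set_option autoImplicit false

/-!
# Proper halving colourings of `[n]^(e + 1)` from proper colourings of `[n - 1]^e`
-/

namespace Pool.Agent.HJH

open Finset Pool.Agent.TTT

/-- A drawing position of the game `3^2`. -/
def T33 : Fin 3 → Fin 3 → Bool :=
  ![![true, false, true], ![false, false, true], ![false, true, false]]

lemma draw33 : ∃ c : (Fin 2 → Fin 3) → Bool, IsDrawing 3 2 c := by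
  refine ⟨fun z => T33 (z 0) (z 1), drawing_of_imb ?_ (by decide +kernel) (by decide +kernel)⟩
  intro x hx b
  have h0 := hx.1 0
  have h1 := hx.1 1
  obtain ⟨i, hi⟩ := hx.2
  have k1 : ∀ (a : Fin 3) (b : Bool), ∃ t : Fin 3, T33 a t ≠ b := by decide
  have k2 : ∀ (a : Fin 3) (b : Bool), ∃ t : Fin 3, T33 t a ≠ b := by decide
  have k3 : ∀ b : Bool, ∃ t : Fin 3, T33 t t ≠ b := by decide
  have k4 : ∀ b : Bool, ∃ t : Fin 3, T33 t (Fin.rev t) ≠ b := by decide
  have k5 : ∀ (a : Fin 3) (b : Bool), ∃ t : Fin 3, T33 a (Fin.rev t) ≠ b := by decide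
  have k6 : ∀ (a : Fin 3) (b : Bool), ∃ t : Fin 3, T33 (Fin.rev t) a ≠ b := by decide
  have k7 : ∀ b : Bool, ∃ t : Fin 3, T33 (Fin.rev t) t ≠ b := by decide
  have k8 : ∀ b : Bool, ∃ t : Fin 3, T33 (Fin.rev t) (Fin.rev t) ≠ b := by decide
  rcases h0 with ⟨a, ha⟩ | h0 | h0 <;> rcases h1 with ⟨a', ha'⟩ | h1 | h1
  · exfalso
    apply hi
    fin_cases i
    · exact ⟨a, ha⟩
    · exact ⟨a', ha'⟩
  · simp only [ha, h1]; exact k1 a b
  · simp only [ha, h1]; exact k5 a b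
  · simp only [h0, ha']; exact k2 a' b
  · simp only [h0, h1]; exact k3 b
  · simp only [h0, h1]; exact k4 b
  · simp only [h0, ha']; exact k6 a' b
  · simp only [h0, h1]; exact k7 b
  · simp only [h0, h1]; exact k8 b

/-- Small dimensions. -/
lemma small_case {m d : ℕ} (hm : 1 ≤ m) (hd : d < 2 * m) :
    ∃ c : (Fin d → Fin (2 * m + 1)) → Bool, IsDrawing (2 * m + 1) d c := by
  have h2 : 2 * m ≤ 2 * 2 ^ (m - 1) := by
    obtain ⟨k, rfl⟩ : ∃ k, m = k + 1 := ⟨m - 1, by omega⟩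
    have := Nat.lt_two_pow_self (n := k)
    simp only [Nat.add_sub_cancel]
    omega
  have g := HJL.good_pow HJL.good_two (by norm_num) (m - 1)
  exact HJL.drawing_of_good g (by omega) (by omega)

/-- The construction. -/
theorem drawing_of_proper {n e : ℕ} (hn : 3 ≤ n)
    (h : ∃ b : (Fin e → Fin (n - 1)) → Bool, IsProper (n - 1) e b) :
    ∃ c : (Fin (e + 1) → Fin n) → Bool, IsDrawing n (e + 1) c := by
  obtain ⟨b, hb⟩ := h
  have hb' := (pr_iff b).2 hb
  rcases Nat.even_or_odd n with ⟨m, hm⟩ | ⟨m, hm⟩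
  · obtain rfl : n = 2 * m := by omega
    exact even_case (by omega) hb'
  · subst hm
    by_cases h1 : e + 1 < 2 * m
    · exact small_case (by omega) h1
    · by_cases h2 : 2 ≤ e
      · exact odd_case (β := b) (by omega) h2 (by omega) hb'
      · obtain rfl : m = 1 := by omega
        obtain rfl : e = 1 := by omega
        exact draw33

lemma drawing_zero (n : ℕ) : ∃ c : (Fin 0 → Fin n) → Bool, IsDrawing n 0 c := by
  refine ⟨fun _ => true, drawing_of_imb ?_ ?_ ?_⟩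
  · rintro x ⟨-, i, -⟩
    exact i.elim0
  · simp [imb]
  · simp [imb]

/-- The Hales–Jewett theorem: the numbers `HJ(n)` are well-defined. -/
theorem hj_nonempty {n : ℕ} (hn : 2 ≤ n) :
    {d | ¬ ∃ c : (Fin d → Fin n) → Bool, IsProper n d c}.Nonempty := by
  classical
  obtain ⟨ι, hι, h⟩ := Combinatorics.Line.exists_mono_in_high_dimension (Fin n) Bool
  let ε := Fintype.equivFin ι
  refine ⟨Fintype.card ι, ?_⟩
  rintro ⟨c, hc⟩
  rw [IsProper, ← pr_iff] at hc
  obtain ⟨l, b, hl⟩ := h fun z => c fun j => z (ε.symm j)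
  have hline : LineMap n fun t j => l t (ε.symm j) := by
    refine ⟨fun j => ?_, ?_⟩
    · rcases hj : l.idxFun (ε.symm j) with _ | a
      · exact Or.inr (Or.inl fun t => by simp [Combinatorics.Line.coe_apply, hj])
      · exact Or.inl ⟨a, fun t => by simp [Combinatorics.Line.coe_apply, hj]⟩
    · obtain ⟨i, hi⟩ := l.proper
      refine ⟨ε i, nonconst_of hn (Or.inl fun t => ?_)⟩
      simp [Combinatorics.Line.coe_apply, hi]
  obtain ⟨t, ht⟩ := hc _ hline b
  exact ht (hl t)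

theorem hj_mem {n : ℕ} (hn : 2 ≤ n) : ¬ ∃ c : (Fin (HJ n) → Fin n) → Bool, IsProper n (HJ n) c :=
  Nat.sInf_mem (hj_nonempty hn)

theorem proper_of_lt {n d : ℕ} (hd : d < HJ n) : ∃ c : (Fin d → Fin n) → Bool, IsProper n d c := by
  by_contra h
  exact Nat.notMem_of_lt_sInf hd h

lemma proper_succ {n d : ℕ} (hn : 2 ≤ n)
    (h : ∃ c : (Fin (d + 1) → Fin n) → Bool, IsProper n (d + 1) c) :
    ∃ c : (Fin d → Fin n) → Bool, IsProper n d c := by
  obtain ⟨c, hc⟩ := h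
  rw [IsProper, ← pr_iff] at hc
  let a : Fin n := ⟨0, by omega⟩
  refine ⟨fun z => c (Fin.cons a z), ?_⟩
  rw [IsProper, ← pr_iff]
  intro x hx b
  refine hc (fun t => Fin.cons a (x t)) ⟨fun i => ?_, ?_⟩ b
  · refine Fin.cases ?_ (fun j => ?_) i
    · exact Or.inl ⟨a, fun t => rfl⟩
    · simpa using hx.1 j
  · obtain ⟨i, hi⟩ := hx.2
    exact ⟨i.succ, by simpa using hi⟩

/-- Proper colourings of `[n]^d` exist exactly for `d < HJ(n)`. -/
theorem proper_iff_lt {n : ℕ} (hn : 2 ≤ n) (d : ℕ) :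
    (∃ c : (Fin d → Fin n) → Bool, IsProper n d c) ↔ d < HJ n := by
  refine ⟨fun h => ?_, proper_of_lt⟩
  by_contra hlt
  rw [not_lt] at hlt
  obtain ⟨k, rfl⟩ := Nat.exists_eq_add_of_le hlt
  apply hj_mem hn
  induction k with
  | zero => exact h
  | succ k ih => exact ih (proper_succ hn h) (Nat.le_add_right _ _)

lemma half_bdd {n : ℕ} (hn : 2 ≤ n) :
    ∀ D ∈ {D | ∀ d < D, ∃ c : (Fin d → Fin n) → Bool, IsDrawing n d c}, D ≤ HJ n := by
  intro D hD
  by_contra hlt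
  obtain ⟨c, hc⟩ := hD (HJ n) (not_le.1 hlt)
  exact hj_mem hn ⟨c, hc.2⟩

theorem half_le {n : ℕ} (hn : 2 ≤ n) : HJhalf n ≤ HJ n :=
  csSup_le ⟨0, fun _ hd => absurd hd (Nat.not_lt_zero _)⟩ (half_bdd hn)

theorem lt_half {n : ℕ} (hn : 3 ≤ n) : HJ (n - 1) < HJhalf n := by
  have hmem : HJ (n - 1) + 1 ∈ {D | ∀ d < D, ∃ c : (Fin d → Fin n) → Bool, IsDrawing n d c} := by
    intro d hd
    rcases d with _ | e
    · exact drawing_zero n
    · exact drawing_of_proper hn (proper_of_lt (by omega))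
  exact Nat.lt_of_succ_le (le_csSup ⟨HJ n, half_bdd (by omega)⟩ hmem)

end Pool.Agent.HJH
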